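import Pool.Agent.Helper45.LinK.GoalsK

/-! Packet BQ: common fixed point modulo the common invariant vectors. -/

open Complex Metric Set Filter Topology MeasureTheory

namespace Pool.Agent.Helper56.LinK

open Pool.Agent.Helper95.Lin Pool.Agent.Helper45.LinK

/-- Semisimplicity of power bounded operators at the eigenvalue `1`. -/
theorem semisimple {k : ℕ} {N : Type} [Group N] {A : N →* CE k} {a : N → Cn k} (h : AffN A a)
    (ν : N) (u : Cn k) (hu : A ν (A ν u - u) = A ν u - u) : A ν u = u := by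
  obtain ⟨C, hC⟩ := h.bdd
  set v : Cn k := A ν u - u with hv
  have hpow : ∀ n : ℕ, A (ν ^ n) u = u + (n : ℂ) • v := by
    intro n
    induction n with
    | zero => simp
    | succ n ih =>
      have h1 : A (ν ^ (n + 1)) u = A ν (A (ν ^ n) u) := by
        rw [pow_succ', map_mul]; rfl
      rw [h1, ih, map_add, map_smul, hu]
      have h2 : A ν u = u + v := by rw [hv]; abel
      rw [h2]
      push_cast
      rw [add_smul, one_smul]
      abel
  have hb : ∀ n : ℕ, (n : ℝ) * ‖v‖ ≤ (C + 1) * ‖u‖ := by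
    intro n
    have h1 : ((n : ℂ)) • v = A (ν ^ n) u - u := by rw [hpow n]; abel
    have h2 : ‖((n : ℂ)) • v‖ = (n : ℝ) * ‖v‖ := by
      rw [norm_smul]; simp
    rw [← h2, h1]
    calc ‖A (ν ^ n) u - u‖ ≤ ‖A (ν ^ n) u‖ + ‖u‖ := norm_sub_le _ _
      _ ≤ C * ‖u‖ + ‖u‖ := by
          have h3 := (A (ν ^ n)).le_opNorm u
          have h4 := hC (ν ^ n)
          have h5 : ‖A (ν ^ n)‖ * ‖u‖ ≤ C * ‖u‖ := mul_le_mul_of_nonneg_right h4 (norm_nonneg _)
          linarith
      _ = (C + 1) * ‖u‖ := by ring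
  have hv0 : ‖v‖ = 0 := by
    by_contra hne
    have hpos : 0 < ‖v‖ := lt_of_le_of_ne (norm_nonneg _) (Ne.symm hne)
    obtain ⟨n, hn⟩ := exists_nat_gt ((C + 1) * ‖u‖ / ‖v‖)
    have h1 := hb n
    rw [div_lt_iff₀ hpos] at hn
    linarith
  have hv1 : v = 0 := norm_eq_zero.mp hv0
  rw [hv] at hv1
  exact sub_eq_zero.mp hv1

/-- Vectors fixed by the linear parts of a set. -/
def fixV {k : ℕ} {N : Type} [Group N] (A : N →* CE k) (F : Set N) : Submodule ℂ (Cn k) where
  carrier := {v | ∀ f ∈ F, A f v = v}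
  add_mem' := by
    intro v w hv hw f hf
    rw [map_add, hv f hf, hw f hf]
  zero_mem' := by
    intro f _
    exact map_zero _
  smul_mem' := by
    intro c v hv f hf
    rw [map_smul, hv f hf]

theorem mem_fixV {k : ℕ} {N : Type} [Group N] {A : N →* CE k} {F : Set N} {v : Cn k} :
    v ∈ fixV A F ↔ ∀ f ∈ F, A f v = v := Iff.rfl

theorem fixV_anti {k : ℕ} {N : Type} [Group N] (A : N →* CE k) {F F' : Set N} (h : F ⊆ F') :
    fixV A F' ≤ fixV A F := fun _ hv f hf => hv f (h hf)

/-- A finite subset with the same fixed vectors. -/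
theorem exists_finite_fixV {k : ℕ} {N : Type} [Group N] (A : N →* CE k) (S : Set N) :
    ∃ F₀ : Set N, F₀.Finite ∧ F₀ ⊆ S ∧ fixV A F₀ = fixV A S := by
  classical
  set P : ℕ → Prop := fun d => ∃ F : Set N, F.Finite ∧ F ⊆ S ∧
    Module.finrank ℂ (fixV A F) = d with hP
  have hex : ∃ d, P d := ⟨_, ∅, Set.finite_empty, Set.empty_subset _, rfl⟩
  obtain ⟨F₀, hfin, hsub, hd⟩ := Nat.find_spec hex
  refine ⟨F₀, hfin, hsub, le_antisymm ?_ (fixV_anti A hsub)⟩
  intro v hv ν hν
  have h1 : fixV A (insert ν F₀) ≤ fixV A F₀ := fixV_anti A (Set.subset_insert _ _)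
  have h2 : Nat.find hex ≤ Module.finrank ℂ (fixV A (insert ν F₀)) :=
    Nat.find_min' hex ⟨insert ν F₀, hfin.insert ν, Set.insert_subset hν hsub, rfl⟩
  rw [← hd] at h2
  have h3 : fixV A (insert ν F₀) = fixV A F₀ := Submodule.eq_of_le_of_finrank_le h1 h2
  have h4 : v ∈ fixV A (insert ν F₀) := by rw [h3]; exact hv
  exact h4 ν (Set.mem_insert _ _)

/-- The quotient step. -/
theorem quot_step {k : ℕ} {N : Type} [Group N] {A : N →* CE k} {a : N → Cn k} (h : AffN A a)
    (hfix : S_FIXN) (F₀ F : Set N) (hF₀ : F₀ ⊆ F) (V₁ : Submodule ℂ (Cn k))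
    (hV0 : fixV A F₀ = V₁) (hV : fixV A F = V₁) (n : ℕ)
    (hc : ∀ c ∈ CommL F n, A c = 1 ∧ a c = 0) :
    ∃ p : Cn k, ∀ f ∈ F, A f p + a f - p ∈ V₁ := by
  classical
  -- the group generated by `F` fixes `V₁` pointwise
  have hfixall : ∀ ν ∈ Subgroup.closure F, ∀ v ∈ V₁, A ν v = v := by
    intro ν hν
    induction hν using Subgroup.closure_induction with
    | mem x hx => intro v hv; rw [← hV] at hv; exact hv x hx
    | one => intro v _; rw [map_one]; rfl
    | mul x y _ _ hx hy =>
      intro v hv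
      rw [map_mul]
      change A x (A y v) = v
      rw [hy v hv, hx v hv]
    | inv x _ hx =>
      intro v hv
      have h1 : A x⁻¹ (A x v) = v := by
        change (A x⁻¹ * A x) v = v
        rw [← map_mul, inv_mul_cancel, map_one]; rfl
      rw [hx v hv] at h1
      exact h1
  have hcomap : ∀ ν : Subgroup.closure F,
      V₁ ≤ V₁.comap ((A (ν : N)) : Cn k →ₗ[ℂ] Cn k) := by
    intro ν v hv
    rw [Submodule.mem_comap]
    change A (ν : N) v ∈ V₁
    rw [hfixall ν ν.2 v hv]
    exact hv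
  let AQ : Subgroup.closure F →* Module.End ℂ (Cn k ⧸ V₁) :=
    { toFun := fun ν => V₁.mapQ V₁ ((A (ν : N)) : Cn k →ₗ[ℂ] Cn k) (hcomap ν)
      map_one' := by
        apply LinearMap.ext
        intro q
        induction q using Submodule.Quotient.induction_on with
        | _ v =>
          rw [Submodule.mapQ_apply]
          simp
      map_mul' := by
        intro ν ν'
        apply LinearMap.ext
        intro q
        induction q using Submodule.Quotient.induction_on with
        | _ v =>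
          rw [Submodule.mapQ_apply]
          simp only [Module.End.mul_apply, Submodule.mapQ_apply]
          simp }
  have hAQ : ∀ (ν : Subgroup.closure F) (v : Cn k),
      AQ ν (Submodule.Quotient.mk v) = Submodule.Quotient.mk (A (ν : N) v) := by
    intro ν v
    rfl
  let aQ : Subgroup.closure F → Cn k ⧸ V₁ := fun ν => Submodule.Quotient.mk (a (ν : N))
  have hmul : ∀ ν ν', aQ (ν * ν') = AQ ν (aQ ν') + aQ ν := by
    intro ν ν'
    change (Submodule.Quotient.mk (a ((ν : N) * ν')) : Cn k ⧸ V₁) =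
      AQ ν (Submodule.Quotient.mk (a (ν' : N))) + Submodule.Quotient.mk (a (ν : N))
    rw [hAQ, h.mul, Submodule.Quotient.mk_add]
  -- key: fixing modulo `V₁` is fixing
  have hkey : ∀ ν ∈ Subgroup.closure F, ∀ u : Cn k, A ν u - u ∈ V₁ → A ν u = u := by
    intro ν hν u hu
    exact semisimple h ν u (hfixall ν hν _ hu)
  have hss : ∀ (ν : Subgroup.closure F) (u : Cn k ⧸ V₁),
      (AQ ν - 1) ((AQ ν - 1) u) = 0 → (AQ ν - 1) u = 0 := by
    intro ν q
    induction q using Submodule.Quotient.induction_on with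
    | _ u =>
      intro hq
      have e1 : ∀ w : Cn k, (AQ ν - 1) (Submodule.Quotient.mk w) =
          Submodule.Quotient.mk (A (ν : N) w - w) := by
        intro w
        rw [LinearMap.sub_apply, hAQ, Module.End.one_apply, ← Submodule.Quotient.mk_sub]
      rw [e1, e1, Submodule.Quotient.mk_eq_zero] at hq
      have h1 := hkey ν ν.2 _ hq
      have h2 := semisimple h (ν : N) u h1
      rw [e1, h2, sub_self, Submodule.Quotient.mk_zero]
  set F' : Set (Subgroup.closure F) := {x | (x : N) ∈ F} with hF'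
  have hcl : Subgroup.closure F' = ⊤ := Subgroup.closure_closure_coe_preimage
  have hcomm : ∀ m : ℕ, ∀ c ∈ CommL F' m, ((c : Subgroup.closure F) : N) ∈ CommL F m := by
    intro m
    induction m with
    | zero => intro c hc'; exact hc'
    | succ m ih =>
      rintro x ⟨f, hf, c, hc', rfl⟩
      exact ⟨f, hf, c, ih c hc', rfl⟩
  have hc' : ∀ c ∈ CommL F' n, AQ c = 1 ∧ aQ c = 0 := by
    intro c hcc
    obtain ⟨h1, h2⟩ := hc _ (hcomm n c hcc)
    constructor
    · apply LinearMap.ext
      intro q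
      induction q using Submodule.Quotient.induction_on with
      | _ v => rw [hAQ, h1]; rfl
    · change (Submodule.Quotient.mk (a (c : N)) : Cn k ⧸ V₁) = 0
      rw [h2, Submodule.Quotient.mk_zero]
  have hnofix : ∀ v : Cn k ⧸ V₁, (∀ f ∈ F', AQ f v = v) → v = 0 := by
    intro q
    induction q using Submodule.Quotient.induction_on with
    | _ u =>
      intro hq
      rw [Submodule.Quotient.mk_eq_zero, ← hV]
      intro f hf
      have h1 := hq ⟨f, Subgroup.subset_closure hf⟩ hf
      rw [hAQ, Submodule.Quotient.eq] at h1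
      exact hkey f (Subgroup.subset_closure hf) u h1
  obtain ⟨q, hq⟩ := hfix n (Cn k ⧸ V₁) AQ aQ hmul hss F' hcl hc' hnofix
  obtain ⟨p, rfl⟩ := Submodule.Quotient.mk_surjective V₁ q
  refine ⟨p, fun f hf => ?_⟩
  have h1 := hq ⟨f, Subgroup.subset_closure hf⟩ hf
  rw [hAQ] at h1
  change (Submodule.Quotient.mk (A f p) : Cn k ⧸ V₁) + Submodule.Quotient.mk (a f) =
    Submodule.Quotient.mk p at h1
  rw [← Submodule.Quotient.mk_add, Submodule.Quotient.eq] at h1
  exact h1

theorem t_BQ (hzas : S_ZAS) (hfix : S_FIXN) : S_BQ := by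
  intro k N _ A a h
  obtain ⟨ε, hε, hF⟩ := hzas h
  refine ⟨ε, hε, fixV A {ν | ‖A ν - 1‖ ≤ ε}, fun v => Iff.rfl, ?_⟩
  set S : Set N := {ν | ‖A ν - 1‖ ≤ ε} with hS
  set V₁ := fixV A S with hV₁
  obtain ⟨F₀, hfin, hsub, hV0'⟩ := exists_finite_fixV A S
  have hV0 : fixV A F₀ = V₁ := hV0'
  -- fixed point modulo `V₁` for every finite set
  have hstep : ∀ F : Set N, F.Finite → F₀ ⊆ F → F ⊆ S → ∃ p : Cn k, ∀ f ∈ F,
      A f p + a f - p ∈ V₁ := by
    intro F hFf h0 h1
    obtain ⟨n, hn⟩ := hF F hFf (fun f hf => h1 hf)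
    refine quot_step h hfix F₀ F h0 V₁ hV0 ?_ n hn
    apply le_antisymm
    · rw [← hV0]; exact fixV_anti A h0
    · exact fixV_anti A h1
  obtain ⟨p, hp⟩ := hstep F₀ hfin subset_rfl hsub
  refine ⟨p, fun ν hν => ?_⟩
  obtain ⟨p', hp'⟩ := hstep (insert ν F₀) (hfin.insert ν) (Set.subset_insert _ _)
    (Set.insert_subset hν hsub)
  have hdiff : p - p' ∈ V₁ := by
    rw [← hV0]
    intro f hf
    have h1 := hp f hf
    have h2 := hp' f (Set.mem_insert_of_mem _ hf)
    have h3 : A f (p - p') - (p - p') ∈ V₁ := by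
      have e : A f (p - p') - (p - p') = (A f p + a f - p) - (A f p' + a f - p') := by
        rw [map_sub]; abel
      rw [e]
      exact V₁.sub_mem h1 h2
    exact semisimple h f _ (h3 f (hsub hf))
  have h1 := hp' ν (Set.mem_insert _ _)
  have h2 : A ν (p - p') = p - p' := hdiff ν hν
  have e : A ν p + a ν - p = (A ν p' + a ν - p') + (A ν (p - p') - (p - p')) := by
    rw [map_sub]; abel
  rw [e, h2, sub_self, add_zero]
  exact h1

end Pool.Agent.Helper56.LinK
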