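import Pool.Agent.Helper45.LinK.GoalsN

/-! Packet SYM: a Kähler metric is closed. -/

open Complex Metric Set Filter Topology MeasureTheory
open scoped ContDiff ComplexConjugate ComplexOrder Manifold

namespace Pool.Agent.Helper56.LinK

open Pool.Agent.Helper95.Lin Pool.Agent.Helper45.LinK

theorem real_single {n : ℕ} (L : Cn n →L[ℝ] ℂ) (l : Fin n) (z : ℂ) :
    L (Pi.single l z) = (z.re : ℂ) * L (Pi.single l 1) + (z.im : ℂ) * L (Pi.single l I) := by
  have h : (Pi.single l z : Cn n) = z.re • (Pi.single l 1 : Cn n) + z.im • (Pi.single l I : Cn n) := by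
    funext m
    by_cases hm : m = l
    · subst hm
      simp only [Pi.add_apply, Pi.smul_apply, Pi.single_eq_same, real_smul, mul_one]
      exact (Complex.re_add_im z).symm
    · simp [Pi.single_eq_of_ne hm]
  rw [h, map_add, map_smul, map_smul, real_smul, real_smul]

theorem real_sum {n : ℕ} (L : Cn n →L[ℝ] ℂ) (ζ : Cn n) : L ζ = ∑ l, L (Pi.single l (ζ l)) := by
  conv_lhs => rw [← Finset.univ_sum_single ζ]
  rw [map_sum]

theorem dz_lin {n : ℕ} (L : Cn n →L[ℝ] ℂ) (ζ : Cn n) :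
    L ζ - I * L (I • ζ) = ∑ l, ζ l * (L (Pi.single l 1) - I * L (Pi.single l I)) := by
  rw [real_sum L ζ, real_sum L (I • ζ), Finset.mul_sum, ← Finset.sum_sub_distrib]
  refine Finset.sum_congr rfl fun l _ => ?_
  rw [real_single L l (ζ l), real_single L l ((I • ζ) l)]
  have e1 : ((I • ζ) l).re = -(ζ l).im := by simp
  have e2 : ((I • ζ) l).im = (ζ l).re := by simp
  rw [e1, e2]
  have e3 : ζ l = ((ζ l).re : ℂ) + ((ζ l).im : ℂ) * I := (Complex.re_add_im _).symm
  have e4 : I * I = -1 := Complex.I_mul_I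
  conv_rhs => rw [e3]
  push_cast
  linear_combination (((ζ l).im : ℂ) * L (Pi.single l I)) * e4

theorem dz_eq {n : ℕ} (ζ : Cn n) (f : Cn n → ℂ) (x : Cn n) : dz ζ f x = ∑ l, ζ l * cd l f x := by
  unfold dz cd
  rw [smul_eq_mul]
  exact dz_lin (fderiv ℝ f x) ζ

theorem hasFDeriv_hermi {n : ℕ} {M : Set (Cn n)} {H : Cn n → Matrix (Fin n) (Fin n) ℂ}
    (h : Met M H) {x : Cn n} (hx : x ∈ M) (ξ η : Cn n) :
    HasFDerivAt (fun y => hermi (H y) ξ η)
      (∑ i, ∑ j, (ξ i * conj (η j)) • fderiv ℝ (fun y => H y i j) x) x := by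
  have hd : ∀ i j, DifferentiableAt ℝ (fun y => H y i j) x := fun i j =>
    ((h.smooth i j).contDiffAt (h.isOpen.mem_nhds hx)).differentiableAt (by simp)
  have h1 : (fun y => hermi (H y) ξ η) = fun y => ∑ i, ∑ j, (ξ i * conj (η j)) * H y i j := by
    funext y
    unfold hermi
    refine Finset.sum_congr rfl fun i _ => Finset.sum_congr rfl fun j _ => ?_
    ring
  rw [h1]
  apply HasFDerivAt.fun_sum
  intro i _
  apply HasFDerivAt.fun_sum
  intro j _
  exact (hd i j).hasFDerivAt.const_mul (ξ i * conj (η j))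

theorem cd_hermi {n : ℕ} {M : Set (Cn n)} {H : Cn n → Matrix (Fin n) (Fin n) ℂ}
    (h : Met M H) {x : Cn n} (hx : x ∈ M) (ξ η : Cn n) (l : Fin n) :
    cd l (fun y => hermi (H y) ξ η) x =
      ∑ i, ∑ j, (ξ i * conj (η j)) * cd l (fun y => H y i j) x := by
  unfold cd
  rw [(hasFDeriv_hermi h hx ξ η).fderiv]
  simp only [_root_.sum_apply, _root_.smul_apply, smul_eq_mul,
    Finset.mul_sum]
  rw [← Finset.sum_sub_distrib]
  refine Finset.sum_congr rfl fun i _ => ?_
  rw [← Finset.sum_sub_distrib]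
  refine Finset.sum_congr rfl fun j _ => ?_
  ring

theorem dz_symm {n : ℕ} {M : Set (Cn n)} {H : Cn n → Matrix (Fin n) (Fin n) ℂ}
    (h : Met M H) {x : Cn n} (hx : x ∈ M) (ζ ξ η : Cn n) :
    dz ζ (fun y => hermi (H y) ξ η) x = dz ξ (fun y => hermi (H y) ζ η) x := by
  rw [dz_eq, dz_eq]
  simp only [cd_hermi h hx, Finset.mul_sum]
  rw [Finset.sum_comm]
  refine Finset.sum_congr rfl fun i _ => Finset.sum_congr rfl fun l _ =>
    Finset.sum_congr rfl fun j _ => ?_
  rw [h.closed x hx i j l]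
  ring

theorem hermi_conj {n : ℕ} {A : Matrix (Fin n) (Fin n) ℂ} (hA : A.IsHermitian) (ξ η : Cn n) :
    hermi A ξ η = conj (hermi A η ξ) := by
  unfold hermi
  rw [map_sum, Finset.sum_comm]
  refine Finset.sum_congr rfl fun j _ => ?_
  rw [map_sum]
  refine Finset.sum_congr rfl fun i _ => ?_
  have h1 : conj (A j i) = A i j := hA.apply i j
  rw [map_mul, map_mul, h1, Complex.conj_conj]
  ring

theorem dzb_conj {n : ℕ} {M : Set (Cn n)} {H : Cn n → Matrix (Fin n) (Fin n) ℂ}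
    (h : Met M H) {x : Cn n} (hx : x ∈ M) (ζ ξ η : Cn n) :
    dzb ζ (fun y => hermi (H y) ξ η) x = conj (dz ζ (fun y => hermi (H y) η ξ) x) := by
  have h1 : (fun y => hermi (H y) ξ η) =ᶠ[𝓝 x] fun y => conj (hermi (H y) η ξ) := by
    filter_upwards [h.isOpen.mem_nhds hx] with y hy
    exact hermi_conj (h.posDef y hy).isHermitian ξ η
  have h2 := hasFDeriv_hermi h hx η ξ
  have h3 : HasFDerivAt (fun y => conj (hermi (H y) η ξ))
      ((Complex.conjCLE : ℂ →L[ℝ] ℂ).comp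
        (∑ i, ∑ j, (η i * conj (ξ j)) • fderiv ℝ (fun y => H y i j) x)) x :=
    ((Complex.conjCLE : ℂ →L[ℝ] ℂ).hasFDerivAt).comp x h2
  unfold dzb dz
  rw [h1.fderiv_eq, h3.fderiv, h2.fderiv]
  simp only [ContinuousLinearMap.comp_apply, smul_eq_mul, map_sub, map_mul, Complex.conj_I]
  change conj _ + I * conj _ = _
  ring

theorem t_SYM : S_SYM := by
  intro n M H h x hx ζ ξ η
  refine ⟨dz_symm h hx ζ ξ η, ?_⟩
  rw [dzb_conj h hx, dzb_conj h hx, dz_symm h hx ζ η ξ]

end Pool.Agent.Helper56.LinK
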